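import Mathlib

namespace Pool.Agent.Results.MP_48fb2a_lc.Unbounded

open Finset

def Acc {Q σ : Type} (δ : Finset (Q × σ × Q)) (F : Finset Q) : Q → List σ → Prop
  | q, [] => q ∈ F
  | q, x :: w => ∃ q', (q, x, q') ∈ δ ∧ Acc δ F q' w

structure Aut (σ : Type) (m : ℕ) where
  start : Fin m
  acc : Finset (Fin m)
  δ : Finset (Fin m × σ × Fin m)

def Aut.lang {σ : Type} {m : ℕ} (A : Aut σ m) : Set (List σ) := {w | Acc A.δ A.acc A.start w}

noncomputable def nsc {σ : Type} (L : Set (List σ)) : ℕ := sInf {m | ∃ A : Aut σ m, A.lang = L}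

noncomputable def tc {σ : Type} (L : Set (List σ)) : ℕ :=
  sInf {t | ∃ m, ∃ A : Aut σ m, A.lang = L ∧ A.δ.card = t}

noncomputable def T {σ : Type} (L : Set (List σ)) : ℕ :=
  sInf {m | ∃ A : Aut σ m, A.lang = L ∧ A.δ.card = tc L}

lemma transfer {Q σ : Type} {N : ℕ} (e : Q ↪ Fin N) (δ : Finset (Q × σ × Q)) (F : Finset Q)
    (q : Q) : ∃ A : Aut σ N, A.lang = {w | Acc δ F q w} ∧ A.δ.card = δ.card := by
  refine ⟨⟨e q, F.map e, δ.map (e.prodMap ((Function.Embedding.refl σ).prodMap e))⟩, ?_,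
    card_map _⟩
  ext w
  simp only [Aut.lang, Set.mem_ofPred_eq]
  induction w generalizing q with
  | nil => simp [Acc]
  | cons x w ih =>
    simp only [Acc]
    constructor
    · rintro ⟨q', h1, h2⟩
      obtain ⟨⟨a, y, b⟩, h3, h4⟩ := mem_map.1 h1
      simp only [Function.Embedding.coe_prodMap, Prod.map, Function.Embedding.refl_apply,
        Prod.mk.injEq, EmbeddingLike.apply_eq_iff_eq] at h4
      obtain ⟨rfl, rfl, rfl⟩ := h4
      exact ⟨b, h3, (ih b).1 h2⟩
    · rintro ⟨q', h1, h2⟩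
      exact ⟨e q', mem_map.2 ⟨_, h1, rfl⟩, (ih q').2 h2⟩

def word (i j : ℕ) : List Bool := List.replicate i false ++ true :: true :: List.replicate j false

lemma word_inj {i j i' j' : ℕ} (h : word i j = word i' j') : i = i' ∧ j = j' := by
  induction i generalizing i' with
  | zero =>
    cases i' with
    | zero => simpa [word] using h
    | succ i' => simp [word, List.replicate_succ] at h
  | succ i ih =>
    cases i' with
    | zero => simp [word, List.replicate_succ] at h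
    | succ i' =>
      have : word i j = word i' j' := by simpa [word, List.replicate_succ] using h
      exact ⟨by rw [(ih this).1], (ih this).2⟩

def LG {n : ℕ} (G : Finset (Fin n × Fin n)) : Set (List Bool) := {w | ∃ p ∈ G, w = word p.1 p.2}

lemma LG_inj {n : ℕ} : Function.Injective (LG (n := n)) := by
  have key : ∀ G G' : Finset (Fin n × Fin n), LG G = LG G' → G ⊆ G' := by
    intro G G' h p hp
    have : word p.1 p.2 ∈ LG G' := h ▸ ⟨p, hp, rfl⟩
    obtain ⟨p', hp', h'⟩ := this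
    obtain ⟨h1, h2⟩ := word_inj h'
    rwa [show p = p' from Prod.ext (Fin.ext h1) (Fin.ext h2)]
  exact fun G G' h => Subset.antisymm (key _ _ h) (key _ _ h.symm)

section gadget
variable {n : ℕ} {Z : Type} [DecidableEq Z] (E1 : Finset (Fin n × Z)) (E2 : Finset (Z × Fin n))

def steps (n : ℕ) : Finset (Fin n × Fin n) := univ.filter fun p => p.2.val = p.1.val + 1

lemma steps_card : (steps n).card ≤ n := by
  have := card_le_card_of_injOn (s := steps n) (t := (univ : Finset (Fin n))) Prod.fst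
    (fun _ _ => by simp) (fun p hp q hq h => by
      simp only [steps, coe_filter, mem_univ, true_and, Set.mem_ofPred_eq] at hp hq
      exact Prod.ext h (Fin.ext (by rw [hp, hq, h])))
  simpa using this

def gd : Finset ((Fin n ⊕ Z ⊕ Fin n) × Bool × (Fin n ⊕ Z ⊕ Fin n)) :=
  (steps n).image (fun p => (.inl p.1, false, .inl p.2)) ∪
    E1.image (fun p => (.inl p.1, true, .inr (.inl p.2))) ∪
    E2.image (fun p => (.inr (.inl p.1), true, .inr (.inr p.2))) ∪
    (steps n).image (fun p => (.inr (.inr p.2), false, .inr (.inr p.1)))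

lemma gd_card : (gd E1 E2).card ≤ 2 * n + E1.card + E2.card := by
  unfold gd
  refine (card_union_le _ _).trans ?_
  refine (Nat.add_le_add_right (card_union_le _ _) _).trans ?_
  refine (Nat.add_le_add_right (Nat.add_le_add_right (card_union_le _ _) _) _).trans ?_
  have h := steps_card (n := n)
  refine (Nat.add_le_add (Nat.add_le_add (Nat.add_le_add (card_image_le.trans h) card_image_le)
    card_image_le) (card_image_le.trans h)).trans (by omega)

lemma acc3 (o : Fin n) (ho : o.val = 0) (j : Fin n) (w : List Bool) :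
    Acc (gd E1 E2) {.inr (.inr o)} (.inr (.inr j)) w ↔ w = List.replicate j false := by
  induction w generalizing j with
  | nil =>
    simp only [Acc, mem_singleton, Sum.inr.injEq, List.nil_eq, List.replicate_eq_nil_iff,
      Fin.ext_iff, ho]
  | cons x w ih =>
    simp only [Acc]
    constructor
    · rintro ⟨q, h1, h2⟩
      simp only [gd, steps, mem_union, mem_image, mem_filter, mem_univ, true_and, Prod.mk.injEq,
        reduceCtorEq, false_and, and_false, exists_false, Sum.inr.injEq, false_or] at h1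
      obtain ⟨p, h3, rfl, rfl, rfl⟩ := h1
      rw [(ih _).1 h2, h3, List.replicate_succ]
    · intro h
      obtain ⟨_ | j, hj⟩ := j
      · simp at h
      · simp only [List.replicate_succ, List.cons.injEq] at h
        refine ⟨.inr (.inr ⟨j, by omega⟩), ?_, (ih _).2 h.2⟩
        simp only [gd, mem_union]
        exact Or.inr (mem_image.2 ⟨(⟨j, by omega⟩, ⟨j + 1, hj⟩), by simp [steps], by simp [h.1]⟩)

lemma acc2 (o : Fin n) (ho : o.val = 0) (z : Z) (w : List Bool) :
    Acc (gd E1 E2) {.inr (.inr o)} (.inr (.inl z)) w ↔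
      ∃ j, (z, j) ∈ E2 ∧ w = true :: List.replicate j false := by
  cases w with
  | nil => simp [Acc]
  | cons x w =>
    simp only [Acc]
    constructor
    · rintro ⟨q, h1, h2⟩
      simp only [gd, steps, mem_union, mem_image, mem_filter, mem_univ, true_and, Prod.mk.injEq,
        reduceCtorEq, false_and, and_false, exists_false, Sum.inr.injEq, false_or, or_false,
        Sum.inl.injEq] at h1
      obtain ⟨p, h3, rfl, rfl, rfl⟩ := h1
      exact ⟨p.2, h3, by rw [(acc3 E1 E2 o ho _ _).1 h2]⟩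
    · rintro ⟨j, h1, h2⟩
      simp only [List.cons.injEq] at h2
      refine ⟨.inr (.inr j), ?_, (acc3 E1 E2 o ho _ _).2 h2.2⟩
      simp only [gd, mem_union]
      exact Or.inl (Or.inr (mem_image.2 ⟨(z, j), h1, by simp [h2.1]⟩))

lemma acc1 (o : Fin n) (ho : o.val = 0) (i : Fin n) (w : List Bool) :
    Acc (gd E1 E2) {.inr (.inr o)} (.inl i) w ↔
      ∃ k, ∃ i' : Fin n, ∃ z j, i'.val = i.val + k ∧ (i', z) ∈ E1 ∧ (z, j) ∈ E2 ∧
        w = word k j := by
  induction w generalizing i with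
  | nil => simp [Acc, word]
  | cons x w ih =>
    simp only [Acc]
    constructor
    · rintro ⟨q, h1, h2⟩
      simp only [gd, steps, mem_union, mem_image, mem_filter, mem_univ, true_and, Prod.mk.injEq,
        reduceCtorEq, false_and, and_false, exists_false, or_false, Sum.inl.injEq] at h1
      rcases h1 with ⟨p, h3, rfl, rfl, rfl⟩ | ⟨p, h3, rfl, rfl, rfl⟩
      · obtain ⟨k, i', z, j, a1, a2, a3, rfl⟩ := (ih _).1 h2
        exact ⟨k + 1, i', z, j, by omega, a2, a3, by simp [word, List.replicate_succ]⟩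
      · obtain ⟨j, a1, rfl⟩ := (acc2 E1 E2 o ho _ _).1 h2
        exact ⟨0, p.1, p.2, j, rfl, h3, a1, by simp [word]⟩
    · rintro ⟨_ | k, i', z, j, a1, a2, a3, h⟩
      · obtain rfl : i' = i := Fin.ext a1
        simp only [word, List.replicate_zero, List.nil_append, List.cons.injEq] at h
        refine ⟨.inr (.inl z), ?_, (acc2 E1 E2 o ho _ _).2 ⟨j, a3, h.2⟩⟩
        simp only [gd, mem_union]
        exact Or.inl (Or.inl (Or.inr (mem_image.2 ⟨(i', z), a2, by simp [h.1]⟩)))
      · simp only [word, List.replicate_succ, List.cons_append, List.cons.injEq] at h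
        have hi : i.val + 1 < n := by have := i'.2; omega
        refine ⟨.inl ⟨i + 1, hi⟩, ?_, (ih _).2 ⟨k, i', z, j, by simp; omega, a2, a3, h.2⟩⟩
        simp only [gd, mem_union]
        exact Or.inl (Or.inl (Or.inl (mem_image.2 ⟨(i, ⟨i + 1, hi⟩), by simp [steps],
          by simp [h.1]⟩)))

lemma gadget [Fintype Z] (hn : 0 < n) (G : Finset (Fin n × Fin n))
    (hG : ∀ i j, (i, j) ∈ G ↔ ∃ z, (i, z) ∈ E1 ∧ (z, j) ∈ E2) :
    ∃ A : Aut Bool (n + (Fintype.card Z + n)), A.lang = LG G ∧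
      A.δ.card ≤ 2 * n + E1.card + E2.card := by
  obtain ⟨A, h1, h2⟩ := transfer (Fintype.equivFinOfCardEq (α := Fin n ⊕ Z ⊕ Fin n)
    (n := n + (Fintype.card Z + n)) (by simp)).toEmbedding (gd E1 E2) {.inr (.inr ⟨0, hn⟩)}
    (.inl ⟨0, hn⟩)
  refine ⟨A, ?_, h2 ▸ gd_card E1 E2⟩
  rw [h1]
  ext w
  simp only [Set.mem_ofPred_eq, acc1 E1 E2 ⟨0, hn⟩ rfl, LG, zero_add]
  constructor
  · rintro ⟨k, i, z, j, rfl, a2, a3, h⟩
    exact ⟨(i, j), (hG i j).2 ⟨z, a2, a3⟩, h⟩
  · rintro ⟨⟨i, j⟩, hp, h⟩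
    obtain ⟨z, a2, a3⟩ := (hG i j).1 hp
    exact ⟨i, i, z, j, rfl, a2, a3, h⟩

end gadget

lemma few_states {n : ℕ} (hn : 0 < n) (G : Finset (Fin n × Fin n)) :
    ∃ A : Aut Bool (n + (Fintype.card (Fin n) + n)), A.lang = LG G := by
  obtain ⟨A, h, -⟩ := gadget (univ.image fun i : Fin n => (i, i)) G hn G (by simp)
  exact ⟨A, h⟩

lemma few_trans {b r : ℕ} (hn : 0 < b * r) (G : Finset (Fin (b * r) × Fin (b * r))) :
    ∃ m, ∃ A : Aut Bool m, A.lang = LG G ∧
      A.δ.card ≤ 2 * (b * r) + b * r * b + b * (2 ^ r * r) := by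
  let S : Fin (b * r) → Fin b → Finset (Fin r) := fun i β =>
    univ.filter fun ρ => (i, finProdFinEquiv (β, ρ)) ∈ G
  obtain ⟨A, h1, h2⟩ := gadget (Z := Fin b × Finset (Fin r))
    (univ.image fun p : Fin (b * r) × Fin b => (p.1, (p.2, S p.1 p.2)))
    ((univ.filter fun p : Fin b × Finset (Fin r) × Fin r => p.2.2 ∈ p.2.1).image
      fun p => ((p.1, p.2.1), finProdFinEquiv (p.1, p.2.2))) hn G (by
      intro i j
      obtain ⟨⟨β, ρ⟩, rfl⟩ := finProdFinEquiv.surjective j
      constructor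
      · intro h
        exact ⟨(β, S i β), mem_image.2 ⟨(i, β), mem_univ _, rfl⟩,
          mem_image.2 ⟨(β, S i β, ρ), by simp [S, h], rfl⟩⟩
      · rintro ⟨z, h1, h2⟩
        obtain ⟨⟨i', β'⟩, -, h3⟩ := mem_image.1 h1
        obtain ⟨⟨β'', s, ρ'⟩, h4, h5⟩ := mem_image.1 h2
        simp only [Prod.mk.injEq, EmbeddingLike.apply_eq_iff_eq] at h3 h5
        obtain ⟨rfl, rfl⟩ := h3
        simp only [Prod.mk.injEq] at h5
        obtain ⟨⟨rfl, rfl⟩, rfl, rfl⟩ := h5
        simpa [S] using h4)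
  refine ⟨_, A, h1, h2.trans (Nat.add_le_add (Nat.add_le_add_left (card_image_le.trans ?_) _)
    (card_image_le.trans ((card_filter_le _ _).trans ?_)))⟩ <;> simp

lemma small_sets (α : Type) [Fintype α] [DecidableEq α] (t : ℕ) (q : ℝ) (hq : 1 ≤ q) :
    ((univ.filter fun s : Finset α => s.card ≤ t).card : ℝ) ≤
      Real.exp (t * q + Fintype.card α / q) := by
  have h1 := Fintype.sum_pow_mul_eq_add_pow α (1 / q) 1
  simp only [one_pow, mul_one] at h1
  have h2 : ((univ.filter fun s : Finset α => s.card ≤ t).card : ℝ) * (1 / q) ^ t ≤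
      (1 / q + 1) ^ Fintype.card α := by
    rw [← h1, ← nsmul_eq_mul, ← sum_const]
    refine (sum_le_sum fun s hs => ?_).trans
      (sum_le_sum_of_subset_of_nonneg (filter_subset _ _) fun s _ _ => by positivity)
    exact pow_le_pow_of_le_one (by positivity) (by rw [div_le_one (by linarith)]; exact hq)
      (mem_filter.1 hs).2
  have h3 : (1 / q + 1) ^ Fintype.card α ≤ Real.exp (Fintype.card α / q) := by
    calc _ ≤ Real.exp (1 / q) ^ Fintype.card α := by
          gcongr; exact Real.add_one_le_exp _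
      _ = _ := by rw [← Real.exp_nat_mul]; congr 1; ring
  have h4 : q ^ t ≤ Real.exp (t * q) := by
    rw [Real.exp_nat_mul]; gcongr; linarith [Real.add_one_le_exp q]
  have h5 : (1 / q) ^ t * q ^ t = 1 := by
    rw [← mul_pow, one_div_mul_cancel (by linarith), one_pow]
  calc _ = ((univ.filter fun s : Finset α => s.card ≤ t).card : ℝ) * (1 / q) ^ t * q ^ t := by
        rw [mul_assoc, h5, mul_one]
    _ ≤ Real.exp (Fintype.card α / q) * Real.exp (t * q) := by gcongr; exact h2.trans h3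
    _ = _ := by rw [← Real.exp_add, add_comm]

lemma counting (n N t : ℕ) (q : ℝ) (hq : 1 ≤ q) (hn : 0 < n)
    (h : 2 * (N : ℝ) + (t * q + 2 * N ^ 2 / q) ≤ n ^ 2 / 2) :
    ∃ G : Finset (Fin n × Fin n), ∀ A : Aut Bool N, A.δ.card ≤ t → A.lang ≠ LG G := by
  by_contra hc
  push Not at hc
  choose A h1 h2 using hc
  have hinj := card_le_card_of_injOn (s := (univ : Finset (Finset (Fin n × Fin n))))
    (t := (univ : Finset (Fin N)) ×ˢ (univ : Finset (Finset (Fin N))) ×ˢ
      (univ.filter fun s : Finset (Fin N × Bool × Fin N) => s.card ≤ t))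
    (fun G => ((A G).start, (A G).acc, (A G).δ)) (fun G _ => by simp [h1 G])
    (fun G _ G' _ hG => by
      apply LG_inj
      rw [← h2, ← h2]
      simp only [Prod.mk.injEq] at hG
      simp only [Aut.lang, hG.1, hG.2.1, hG.2.2])
  have hs := small_sets (Fin N × Bool × Fin N) t q hq
  simp only [card_univ, Fintype.card_finset, Fintype.card_prod, Fintype.card_fin, card_product,
    Fintype.card_bool] at hinj hs
  have hinj' : (2 : ℝ) ^ (n * n) ≤ N * (2 ^ N *
      ((univ.filter fun s : Finset (Fin N × Bool × Fin N) => s.card ≤ t).card : ℝ)) := by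
    exact_mod_cast hinj
  have e1 : (N : ℝ) ≤ Real.exp N := by linarith [Real.add_one_le_exp (N : ℝ)]
  have e2 : (2 : ℝ) ^ N ≤ Real.exp N := by
    rw [← mul_one (N : ℝ), Real.exp_nat_mul]; gcongr; linarith [Real.add_one_le_exp (1 : ℝ)]
  have e3 : Real.exp (n ^ 2 / 2) < (2 : ℝ) ^ (n * n) := by
    have : (n : ℝ) ^ 2 / 2 = ((n * n : ℕ) : ℝ) * (1 / 2) := by push_cast; ring
    rw [this, Real.exp_nat_mul]
    refine pow_lt_pow_left₀ ?_ (by positivity) (by positivity)
    rw [← Real.lt_log_iff_exp_lt (by norm_num)]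
    linarith [Real.log_two_gt_d9]
  have e4 : (N : ℝ) * (2 ^ N *
      ((univ.filter fun s : Finset (Fin N × Bool × Fin N) => s.card ≤ t).card : ℝ)) ≤
      Real.exp (n ^ 2 / 2) := by
    calc _ ≤ Real.exp N * (Real.exp N * Real.exp (t * q + ((N * (2 * N) : ℕ) : ℝ) / q)) := by
          gcongr
      _ ≤ _ := by
          rw [← Real.exp_add, ← Real.exp_add]
          apply Real.exp_le_exp.2
          push_cast
          have : (N : ℝ) * (2 * N) / q = 2 * N ^ 2 / q := by ring
          linarith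
  linarith

theorem result (C : ℕ) : ∃ L : Set (List Bool),
    (∃ m, ∃ A : Aut Bool m, A.lang = L) ∧ C * nsc L < T L := by
  obtain ⟨q, hq⟩ : ∃ q, q = 72 * C ^ 2 + 1 := ⟨_, rfl⟩
  obtain ⟨r, hr⟩ : ∃ r, r = 16 * q := ⟨_, rfl⟩
  obtain ⟨P, hP⟩ : ∃ P, P = 2 ^ r := ⟨_, rfl⟩
  obtain ⟨b, hb⟩ : ∃ b, b = 2 + P + 48 * C := ⟨_, rfl⟩
  have hn : 0 < b * r := Nat.mul_pos (by omega) (by omega)
  obtain ⟨G, hG⟩ := counting (b * r) (C * (3 * (b * r)))
    (2 * (b * r) + b * r * b + b * (2 ^ r * r)) q (by rw [hq]; push_cast; nlinarith) hn (by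
      rw [← hP]
      have q1 : (q : ℝ) = 72 * C ^ 2 + 1 := by rw [hq]; push_cast; ring
      have r1 : (r : ℝ) = 16 * q := by rw [hr]; push_cast; ring
      have b1 : (b : ℝ) = 2 + P + 48 * C := by rw [hb]; push_cast; ring
      have hC := C.cast_nonneg (α := ℝ)
      have hP0 := P.cast_nonneg (α := ℝ)
      have q0 : (1 : ℝ) ≤ q := by nlinarith
      push_cast
      set n : ℝ := b * r with hn'
      have n0 : 0 ≤ n := by positivity
      have a1 : 2 * (C * (3 * n)) ^ 2 / (q : ℝ) ≤ n ^ 2 / 4 := by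
        rw [div_le_iff₀ (by linarith), q1]; nlinarith [sq_nonneg n]
      have a2 : 48 * (C : ℝ) ≤ n := by rw [hn', r1]; nlinarith
      have a3 : 2 * (C * (3 * n)) ≤ n ^ 2 / 8 := by nlinarith
      have a4 : n * b * q = n ^ 2 / 16 := by rw [sq, hn', r1]; ring
      have a5 : (2 + P) * (q : ℝ) ≤ n / 16 := by rw [hn', r1]; nlinarith
      have a6 : (b : ℝ) * (P * r) = P * n := by rw [hn']; ring
      rw [a6]
      nlinarith)
  obtain ⟨A1, hA1⟩ := few_states hn G
  obtain ⟨m, A2, hA2, hA3⟩ := few_trans hn G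
  refine ⟨LG G, ⟨_, A1, hA1⟩, ?_⟩
  have h1 : nsc (LG G) ≤ 3 * (b * r) := by
    refine (Nat.sInf_le (s := {m | ∃ A : Aut Bool m, A.lang = LG G}) ⟨A1, hA1⟩).trans ?_
    simp; omega
  have h2 : tc (LG G) ≤ 2 * (b * r) + b * r * b + b * (2 ^ r * r) :=
    (Nat.sInf_le (s := {t | ∃ m, ∃ A : Aut Bool m, A.lang = LG G ∧ A.δ.card = t})
      ⟨m, A2, hA2, rfl⟩).trans hA3
  obtain ⟨m', A3, h3, h4⟩ := Nat.sInf_mem
    (s := {t | ∃ m, ∃ A : Aut Bool m, A.lang = LG G ∧ A.δ.card = t}) ⟨_, m, A2, hA2, rfl⟩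
  obtain ⟨A4, h5, h6⟩ := Nat.sInf_mem
    (s := {m | ∃ A : Aut Bool m, A.lang = LG G ∧ A.δ.card = tc (LG G)}) ⟨m', A3, h3, h4⟩
  by_contra hc
  push Not at hc
  have h7 : T (LG G) ≤ C * (3 * (b * r)) := hc.trans (Nat.mul_le_mul_left _ h1)
  obtain ⟨A5, h8, h9⟩ := transfer (Fin.castLEEmb h7) A4.δ A4.acc A4.start
  exact hG A5 ((h9.trans h6).le.trans h2) (h8.trans h5)

end Pool.Agent.Results.MP_48fb2a_lc.Unbounded
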